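import Pool.Agent.K6.H33.PF.Lead
import Pool.Agent.K6.H33.NM.PI
import Pool.Agent.K6.H7.PF.Ext

set_option autoImplicit false
set_option linter.unusedSectionVars false

/-! # Nested Pfaffians: roots and zeta functions -/

namespace Pool.Agent.K6.H33.PF

open MeasureTheory Matrix Set MvPolynomial Pool.Agent.K6.H33.NM Pool.Agent.K6.H7.PF
open scoped ENNReal

/-! ### The exponents -/

theorem AA_oa (a : ℕ → ℕ) : ∀ m : ℕ, AA (oa a) (2 * m + 1) = ∑ i ∈ Finset.range (m + 1), a (i + 1)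
  | 0 => by
    unfold AA oa
    simp
  | m + 1 => by
    have h1 : AA (oa a) (2 * (m + 1) + 1) = AA (oa a) (2 * m + 1) + oa a (2 * m + 2) +
        oa a (2 * m + 3) := by
      rw [show 2 * (m + 1) + 1 = 2 * m + 2 + 1 by ring, AA_succ, AA_succ]
    have h2 : oa a (2 * m + 2) = 0 := by unfold oa; rw [if_neg (by omega)]
    have h3 : oa a (2 * m + 3) = a (m + 2) := by
      unfold oa
      rw [if_pos (by omega)]
      congr 1
      omega
    rw [h1, h2, h3, AA_oa a m, Finset.sum_range_succ (n := m + 1)]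
    simp

theorem AA_oa' (a : ℕ → ℕ) (m : ℕ) :
    AA (oa a) (2 * m + 2) = ∑ i ∈ Finset.range (m + 1), a (i + 1) := by
  have h2 : oa a (2 * m + 2) = 0 := by unfold oa; rw [if_neg (by omega)]
  rw [show 2 * m + 2 = 2 * m + 1 + 1 by ring, AA_succ, h2, AA_oa, add_zero]

/-! ### The complex integral -/

/-- The reciprocal of the complex integral. -/
noncomputable def SD : ℕ → (ℕ → ℕ) → ℂ → ℂ
  | 0, _, _ => 1
  | n + 1, a, s => DJ (oa a) (2 * n + 1) s * SD n (fun i => a (i + 1)) s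

/-- The complex integral. -/
noncomputable def SE : ℕ → (ℕ → ℝ) → ℝ
  | 0, _ => 1
  | n + 1, s => EJ (od s) (2 * n + 1) * SE n (fun i => s (i + 1))

theorem SE_pos : ∀ (n : ℕ) (s : ℕ → ℝ) (_ : ∀ i, 0 ≤ s i), 0 < SE n s
  | 0, _, _ => one_pos
  | n + 1, s, hs => mul_pos (EJ_pos _ (od_nonneg s hs) _) (SE_pos n _ fun i => hs _)

theorem PC_SI : ∀ (n : ℕ) (s : ℕ → ℝ) (_ : ∀ i, 0 ≤ s i), SI PC s n = ENNReal.ofReal (SE n s)
  | 0, s, _ => by rw [SI_zero, SE, ENNReal.ofReal_one]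
  | n + 1, s, hs => by
    rw [SI_succ (fun x h => add_self_eq_zero.1 h) PC s hs, PC_J _ (od_nonneg s hs), PC_SI n _ fun i => hs _, SE,
      ENNReal.ofReal_mul (EJ_pos _ (od_nonneg s hs) _).le]

theorem SD_diff : ∀ (n : ℕ) (a : ℕ → ℕ), Differentiable ℂ (SD n a)
  | 0, a => by
    have : SD 0 a = fun _ => 1 := by funext s; rfl
    rw [this]
    exact differentiable_const 1
  | n + 1, a => by
    have : SD (n + 1) a = fun s => DJ (oa a) (2 * n + 1) s * SD n (fun i => a (i + 1)) s := by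
      funext s; rfl
    rw [this]
    exact (DJ_diff (oa a) (2 * n + 1)).mul (SD_diff n _)

theorem SD_SE (σ : ℝ) (hσ : 0 ≤ σ) : ∀ (n : ℕ) (a : ℕ → ℕ),
    SD n a (σ : ℂ) * (SE n (fun i => (a i : ℝ) * σ / 2) : ℂ) = 1
  | 0, a => by simp [SD, SE]
  | n + 1, a => by
    have h1 := DJ_EJ (oa a) σ hσ (2 * n + 1)
    have h2 := SD_SE σ hσ n (fun i => a (i + 1))
    rw [SD, SE, Complex.ofReal_mul, od_oa]
    linear_combination (SD n (fun i => a (i + 1)) σ * (SE n (fun i => (a (i + 1) : ℝ) * σ / 2) : ℂ)) * h1 + h2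

theorem SD_zero (s : ℂ) : ∀ (n : ℕ) (a : ℕ → ℕ) (r m : ℕ), r + m + 1 ≤ n →
    (2 * (m : ℂ) + 1 + ((∑ i ∈ Finset.range (m + 1), a (r + i + 1) : ℕ) : ℂ) * s = 0) → SD n a s = 0
  | 0, a, r, m, h, _ => by omega
  | n + 1, a, 0, m, h, h0 => by
    rw [SD]
    have h1 : DJ (oa a) (2 * n + 1) s = 0 := by
      unfold DJ
      rw [Finset.prod_eq_zero (i := 2 * m) (Finset.mem_range.2 (by omega)), mul_zero]
      rw [AA_oa]
      push_cast at h0 ⊢
      simpa using h0
    rw [h1, zero_mul]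
  | n + 1, a, r + 1, m, h, h0 => by
    rw [SD]
    have h1 := SD_zero s n (fun i => a (i + 1)) r m (by omega) (by
      have h2 : ∀ i, r + i + 1 + 1 = r + 1 + i + 1 := fun i => by omega
      simpa only [h2] using h0)
    rw [h1, mul_zero]

theorem DJ_ne (a : ℕ → ℕ) (M : ℕ) (lam : ℝ) (s : ℂ) (hs : -lam < s.re)
    (H : ∀ m, m + 1 ≤ M → lam * AA a (m + 1) ≤ m + 1) : DJ a M s ≠ 0 := by
  have key : ∀ m, m + 1 ≤ M → 0 < (m : ℝ) + 1 + AA a (m + 1) * s.re := by
    intro m hm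
    have h1 := H m hm
    rcases Nat.eq_zero_or_pos (AA a (m + 1)) with h2 | h2
    · rw [h2]; simp; positivity
    · have h3 : (0 : ℝ) < AA a (m + 1) := by exact_mod_cast h2
      nlinarith
  unfold DJ
  refine mul_ne_zero ?_ ?_
  · apply inv_ne_zero
    apply Complex.Gamma_ne_zero_of_re_pos
    have e : ((M : ℂ) + 1 + (AA a M : ℂ) * s).re = (M : ℝ) + 1 + AA a M * s.re := by simp
    rw [e]
    rcases M with _ | M
    · simp [AA]
    · have := key M le_rfl
      push_cast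
      linarith
  · rw [Finset.prod_ne_zero_iff]
    intro m hm h0
    have h1 := congrArg Complex.re h0
    have e : ((m : ℂ) + 1 + (AA a (m + 1) : ℂ) * s).re = (m : ℝ) + 1 + AA a (m + 1) * s.re := by simp
    rw [e] at h1
    have := key m (Finset.mem_range.1 hm)
    simp at h1
    linarith

theorem SD_ne (lam : ℝ) (s : ℂ) (hs : -lam < s.re) : ∀ (n : ℕ) (a : ℕ → ℕ)
    (_ : ∀ r m, r + m + 1 ≤ n → lam * (∑ i ∈ Finset.range (m + 1), a (r + i + 1) : ℕ) ≤ 2 * m + 1),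
    SD n a s ≠ 0
  | 0, a, _ => by simp [SD]
  | n + 1, a, H => by
    rw [SD]
    refine mul_ne_zero (DJ_ne _ _ lam s hs ?_) (SD_ne lam s hs n _ ?_)
    · intro m hm
      rcases Nat.even_or_odd' m with ⟨c, hc | hc⟩
      · rw [hc, AA_oa]
        have h1 := H 0 c (by omega)
        push_cast at h1 ⊢
        simp only [zero_add] at h1
        exact h1
      · rw [hc, show 2 * c + 1 + 1 = 2 * c + 2 by ring, AA_oa']
        have h1 := H 0 c (by omega)
        push_cast at h1 ⊢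
        simp only [zero_add] at h1
        linarith
    · intro r m hrm
      have h1 := H (r + 1) m (by omega)
      have h2 : ∀ i, r + i + 1 + 1 = r + 1 + i + 1 := fun i => by omega
      simpa only [h2] using h1

/-- It is enough to have the inequalities for the segments with a positive last exponent. -/
theorem seg_all (lam : ℝ) (n : ℕ) (a : ℕ → ℕ) (H : ∀ r m, r + m + 1 ≤ n → a (r + m + 1) ≠ 0 →
    lam * (∑ i ∈ Finset.range (m + 1), a (r + i + 1) : ℕ) ≤ 2 * m + 1) : ∀ m r, r + m + 1 ≤ n →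
    lam * (∑ i ∈ Finset.range (m + 1), a (r + i + 1) : ℕ) ≤ 2 * m + 1
  | 0, r, h => by
    by_cases h0 : a (r + 0 + 1) = 0
    · rw [Finset.sum_range_one, h0]
      simp
    · exact H r 0 h h0
  | m + 1, r, h => by
    by_cases h0 : a (r + (m + 1) + 1) = 0
    · rw [Finset.sum_range_succ, h0, add_zero]
      have := seg_all lam n a H m r (by omega)
      push_cast at this ⊢
      linarith
    · exact H r (m + 1) h h0

/-- The numbers `(d (j - k) + 1) / (a_k + ... + a_j)`. -/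
noncomputable def cand (d : ℕ) {n : ℕ} (a : Fin n → ℕ) (k j : Fin n) : ℚ :=
  ((d : ℚ) * ((j : ℕ) - (k : ℕ)) + 1) / ∑ i ∈ Finset.Icc k j, (a i : ℚ)

/-- The condition on the exponents: all candidate poles are less than one apart from the largest. -/
def Close (d : ℕ) {n : ℕ} (a : Fin n → ℕ) : Prop :=
  ∀ k j : Fin n, k ≤ j → 0 < a j → ∀ k' j' : Fin n, k' ≤ j' → 0 < a j' →
    cand d a k j < 1 + cand d a k' j'

theorem cand_eq (d : ℕ) {n : ℕ} (a : Fin n → ℕ) (r m : ℕ) (h : r + m < n) :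
    ((cand d a ⟨r, by omega⟩ ⟨r + m, h⟩ : ℚ) : ℝ) =
      ((d : ℝ) * (m : ℝ) + 1) / ((∑ i ∈ Finset.range (m + 1), ex a (r + i + 1) : ℕ) : ℝ) := by
  rw [sum_ex a r m h]
  unfold cand
  push_cast
  congr 1
  ring

/-- The smallest candidate. -/
theorem close_lam (d : ℕ) {n : ℕ} (a : Fin n → ℕ) (ha : Close d a) (r m : ℕ)
    (hrm : r + m + 1 ≤ n) (hA : ex a (r + m + 1) ≠ 0) : ∃ lam : ℝ, 0 < lam ∧
    (∀ r m, r + m + 1 ≤ n → ex a (r + m + 1) ≠ 0 →
      lam * (∑ i ∈ Finset.range (m + 1), ex a (r + i + 1) : ℕ) ≤ d * m + 1) ∧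
    ((d : ℝ) * (m : ℝ) + 1) / ((∑ i ∈ Finset.range (m + 1), ex a (r + i + 1) : ℕ) : ℝ) < 1 + lam := by
  have hpos : ∀ r m, ex a (r + m + 1) ≠ 0 → 0 < ∑ i ∈ Finset.range (m + 1), ex a (r + i + 1) := by
    intro r m h
    rw [Finset.sum_range_succ]
    omega
  have haj : ∀ r m (h : r + m < n), ex a (r + m + 1) ≠ 0 → 0 < a ⟨r + m, h⟩ := by
    intro r m h h1
    rw [ex_succ' a (r + m) h] at h1
    omega
  set W : Finset (Fin n × Fin n) := Finset.univ.filter fun q => q.1 ≤ q.2 ∧ 0 < a q.2 with hW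
  have hWne : W.Nonempty := by
    refine ⟨(⟨r, by omega⟩, ⟨r + m, by omega⟩), ?_⟩
    rw [hW, Finset.mem_filter]
    exact ⟨Finset.mem_univ _, by rw [Fin.le_def]; simp, haj r m (by omega) hA⟩
  obtain ⟨q0, hq0, hmin⟩ := Finset.exists_min_image W (fun q => cand d a q.1 q.2) hWne
  rw [hW, Finset.mem_filter] at hq0
  obtain ⟨-, hq1, hq2⟩ := hq0
  have hS0 : 0 < ∑ i ∈ Finset.Icc q0.1 q0.2, (a i : ℚ) := by
    refine lt_of_lt_of_le (by exact_mod_cast hq2 : (0 : ℚ) < a q0.2)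
      (Finset.single_le_sum (f := fun i => (a i : ℚ)) (fun i _ => by positivity)
        (Finset.mem_Icc.2 ⟨hq1, le_rfl⟩))
  refine ⟨((cand d a q0.1 q0.2 : ℚ) : ℝ), ?_, ?_, ?_⟩
  · have h1 : (0 : ℚ) < cand d a q0.1 q0.2 := by
      unfold cand
      apply div_pos _ hS0
      have : ((q0.1 : ℕ) : ℚ) ≤ ((q0.2 : ℕ) : ℚ) := by exact_mod_cast hq1
      have h2 : (0 : ℚ) ≤ (d : ℚ) * (((q0.2 : ℕ) : ℚ) - ((q0.1 : ℕ) : ℚ)) :=
        mul_nonneg (by positivity) (by linarith)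
      linarith
    exact_mod_cast h1
  · intro r m h1 h2
    have h3 := hmin (⟨r, by omega⟩, ⟨r + m, by omega⟩) (by
      rw [hW, Finset.mem_filter]
      exact ⟨Finset.mem_univ _, by rw [Fin.le_def]; simp, haj r m (by omega) h2⟩)
    simp only at h3
    have h4 : ((cand d a q0.1 q0.2 : ℚ) : ℝ) ≤ ((cand d a ⟨r, by omega⟩ ⟨r + m, by omega⟩ : ℚ) : ℝ) := by
      exact_mod_cast h3
    rw [cand_eq d a r m (by omega)] at h4
    have h5 : (0 : ℝ) < ((∑ i ∈ Finset.range (m + 1), ex a (r + i + 1) : ℕ) : ℝ) := by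
      exact_mod_cast hpos r m h2
    rwa [le_div_iff₀ h5] at h4
  · have h1 := ha ⟨r, by omega⟩ ⟨r + m, by omega⟩ (by rw [Fin.le_def]; simp) (haj r m (by omega) hA)
      q0.1 q0.2 hq1 hq2
    rw [← cand_eq d a r m (by omega)]
    exact_mod_cast h1

/-- **The roots.** -/
theorem root_npf {n : ℕ} (a : Fin n → ℕ) (ha : Close 2 a) (b : Polynomial ℂ)
    (hb : Pool.Agent.H628R4.TP.IsBFunction (map (Int.castRingHom ℂ) (npf n a)) b) (r m : ℕ)
    (hrm : r + m + 1 ≤ n) (hA : ex a (r + m + 1) ≠ 0) :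
    b.eval (((-(2 * (m : ℝ) + 1) / ((∑ i ∈ Finset.range (m + 1), ex a (r + i + 1) : ℕ) : ℝ) : ℝ)) : ℂ)
      = 0 := by
  obtain ⟨lam, hlam, hH, hclose⟩ := close_lam 2 a ha r m hrm hA
  simp only [Nat.cast_ofNat] at hH hclose
  set A : ℕ := ∑ i ∈ Finset.range (m + 1), ex a (r + i + 1) with hAdef
  have hA0 : (0 : ℝ) < A := by
    have : 0 < A := by
      rw [hAdef, Finset.sum_range_succ]
      omega
    exact_mod_cast this
  haveI : Nonempty (Pr (2 * n)) := ⟨⟨(⟨0, by omega⟩, ⟨1, by omega⟩), by rw [Fin.lt_def]; simp⟩⟩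
  refine root_hom_ext (map (Int.castRingHom ℂ) (npf n a)) (∑ k : Fin n, ((k : ℕ) + 1) * a k) ?_ b hb
    (fun σ => SE n (fun i => (ex a i : ℝ) * σ / 2)) ?_ ?_ (SD n (ex a)) (SD_diff n _) ?_ lam hlam ?_ _ ?_ ?_
  · intro c x
    rw [eval_npf, eval_npf]
    rw [← Finset.prod_pow_eq_pow_sum, ← Finset.prod_mul_distrib]
    refine Finset.prod_congr rfl fun k _ => ?_
    have h1 : lpf (c • x) k = (c : ℂ) ^ ((k : ℕ) + 1) * lpf x k := by
      have h2 := lpf_smul (c : ℂ) x k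
      have h3 : (c • x) = fun q => (c : ℂ) * x q := by
        funext q
        simp
      rw [h3]
      exact h2
    rw [h1, mul_pow, pow_mul]
  · intro σ hσ
    exact (SE_pos n _ fun i => by positivity).le
  · intro σ hσ
    have h1 := int_npf PC a σ hσ.le
    rw [PC_SI n _ (fun i => by positivity)] at h1
    rw [← h1]
    refine lintegral_congr fun x => ?_
    have h2 : PC.nrm (∏ k, lpf x k ^ a k) = ‖∏ k, lpf x k ^ a k‖ₑ ^ 2 := rfl
    rw [h2, eval_npf, ← ENNReal.ofReal_rpow_of_nonneg (by positivity) hσ.le,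
      ENNReal.ofReal_pow (norm_nonneg _), ofReal_norm]
  · intro σ hσ
    exact SD_SE σ hσ.le n (ex a)
  · intro s hs
    exact SD_ne lam s hs n (ex a) fun r m h => seg_all lam n (ex a) (fun r m h1 h2 => by
      exact hH r m h1 h2) m r h
  · have : -(2 * (m : ℝ) + 1) / (A : ℝ) = - ((2 * (m : ℝ) + 1) / (A : ℝ)) := by ring
    rw [this]
    linarith
  · apply SD_zero _ n (ex a) r m hrm
    rw [← hAdef]
    push_cast
    have : (A : ℂ) ≠ 0 := by exact_mod_cast hA0.ne'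
    field_simp
    ring

/-! ### The nested minors again, with the weaker condition -/

theorem DI_ne (lam : ℝ) (s : ℂ) (hs : -lam < s.re) : ∀ (n : ℕ) (a : ℕ → ℕ)
    (_ : ∀ r m, r + m + 1 ≤ n → lam * (∑ i ∈ Finset.range (m + 1), a (r + i + 1) : ℕ) ≤ m + 1),
    DI a n s ≠ 0
  | 0, a, _ => by simp [DI]
  | n + 1, a, H => by
    rw [DI]
    refine mul_ne_zero (DJ_ne _ _ lam s hs ?_) (DI_ne lam s hs n _ ?_)
    · intro m hm
      have h1 := H 0 m (by omega)
      unfold AA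
      simpa using h1
    · intro r m hrm
      have h1 := H (r + 1) m (by omega)
      have h2 : ∀ i, r + i + 1 + 1 = r + 1 + i + 1 := fun i => by omega
      simpa only [h2] using h1

theorem seg_all1 (lam : ℝ) (n : ℕ) (a : ℕ → ℕ) (H : ∀ r m, r + m + 1 ≤ n → a (r + m + 1) ≠ 0 →
    lam * (∑ i ∈ Finset.range (m + 1), a (r + i + 1) : ℕ) ≤ m + 1) : ∀ m r, r + m + 1 ≤ n →
    lam * (∑ i ∈ Finset.range (m + 1), a (r + i + 1) : ℕ) ≤ m + 1
  | 0, r, h => by
    by_cases h0 : a (r + 0 + 1) = 0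
    · rw [Finset.sum_range_one, h0]
      simp
    · exact H r 0 h h0
  | m + 1, r, h => by
    by_cases h0 : a (r + (m + 1) + 1) = 0
    · rw [Finset.sum_range_succ, h0, add_zero]
      have := seg_all1 lam n a H m r (by omega)
      push_cast at this ⊢
      linarith
    · exact H r (m + 1) h h0

/-- **The roots, nested minors.** -/
theorem root_minors {n : ℕ} (a : Fin n → ℕ) (ha : Close 1 a) (b : Polynomial ℂ)
    (hb : Pool.Agent.H628R4.TP.IsBFunction (map (Int.castRingHom ℂ) (nested n a)) b) (r m : ℕ)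
    (hrm : r + m + 1 ≤ n) (hA : ex a (r + m + 1) ≠ 0) :
    b.eval (((-((m : ℝ) + 1) / ((∑ i ∈ Finset.range (m + 1), ex a (r + i + 1) : ℕ) : ℝ) : ℝ)) : ℂ)
      = 0 := by
  obtain ⟨lam, hlam, hH, hclose⟩ := close_lam 1 a ha r m hrm hA
  simp only [Nat.cast_one] at hH hclose
  set A : ℕ := ∑ i ∈ Finset.range (m + 1), ex a (r + i + 1) with hAdef
  have hA0 : (0 : ℝ) < A := by
    have : 0 < A := by
      rw [hAdef, Finset.sum_range_succ]
      omega
    exact_mod_cast this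
  haveI : Nonempty (Fin n × Fin n) := ⟨(⟨0, by omega⟩, ⟨0, by omega⟩)⟩
  refine root_hom_ext (map (Int.castRingHom ℂ) (nested n a)) (∑ k : Fin n, ((k : ℕ) + 1) * a k) ?_ b hb
    (fun σ => EI (fun i => (ex a i : ℝ) * σ) n) ?_ ?_ (DI (ex a) n) (DI_diff n _) ?_ lam hlam ?_ _ ?_ ?_
  · intro c x
    rw [eval_nested, eval_nested]
    rw [← Finset.prod_pow_eq_pow_sum, ← Finset.prod_mul_distrib]
    refine Finset.prod_congr rfl fun k _ => ?_
    have h1 : lead (fun i j => (c • x) (i, j)) k = (c : ℂ) ^ ((k : ℕ) + 1) *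
        lead (fun i j => x (i, j)) k := by
      have h2 := lead_smul (c : ℂ) (fun i j => x (i, j)) k
      simpa using h2
    rw [h1, mul_pow, pow_mul]
  · intro σ hσ
    exact (EI_pos n _ fun i => by positivity).le
  · intro σ hσ
    have h1 := int_nested PC a σ hσ.le
    rw [PC_I n _ (fun i => by positivity)] at h1
    rw [← h1]
    refine lintegral_congr fun x => ?_
    have h2 : PC.nrm (∏ k, lead (fun i j => x (i, j)) k ^ a k) =
        ‖∏ k, lead (fun i j => x (i, j)) k ^ a k‖ₑ ^ 2 := rfl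
    rw [h2, eval_nested, ← ENNReal.ofReal_rpow_of_nonneg (by positivity) hσ.le,
      ENNReal.ofReal_pow (norm_nonneg _), ofReal_norm]
  · intro σ hσ
    exact DI_EI σ hσ.le n (ex a)
  · intro s hs
    exact DI_ne lam s hs n (ex a) fun r m h => seg_all1 lam n (ex a) (fun r m h1 h2 => by
      have := hH r m h1 h2
      rw [one_mul] at this
      exact this) m r h
  · have : -((m : ℝ) + 1) / (A : ℝ) = - ((1 * (m : ℝ) + 1) / (A : ℝ)) := by ring
    rw [this]
    linarith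
  · apply DI_zero _ n (ex a) r m hrm
    rw [← hAdef]
    push_cast
    have : (A : ℂ) ≠ 0 := by exact_mod_cast hA0.ne'
    field_simp
    ring

end Pool.Agent.K6.H33.PF
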