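import Pool.Agent.K6.H33.PF.Mp
import Pool.Agent.Helper929.Pfaffian

set_option autoImplicit false

/-! # The integral of a product of powers of nested Pfaffians -/

namespace Pool.Agent.K6.H33.PF

open MeasureTheory Matrix Set Pool.Agent.K6.H33.NM
open scoped ENNReal

variable {K : Type} [CommRing K] [MeasurableSpace K]

/-- The exponents `2 s 1, 0, 2 s 2, 0, 2 s 3, ...`. -/
noncomputable def od (s : ℕ → ℝ) (m : ℕ) : ℝ := if m % 2 = 1 then 2 * s ((m + 1) / 2) else 0

theorem od_odd (s : ℕ → ℝ) (n : ℕ) : od s (2 * n + 1) = 2 * s (n + 1) := by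
  unfold od
  rw [if_pos (by omega)]
  congr 2
  omega

theorem od_even (s : ℕ → ℝ) (n : ℕ) : od s (2 * n + 2) = 0 := by
  unfold od
  rw [if_neg (by omega)]

theorem od_nonneg (s : ℕ → ℝ) (hs : ∀ i, 0 ≤ s i) (i : ℕ) : 0 ≤ od s i := by
  unfold od
  split_ifs
  · have := hs ((i + 1) / 2)
    positivity
  · exact le_rfl

/-- The product of the powers of the determinants of the submatrices on the last `2 k` indices. -/
noncomputable def SF (P : Peel K) (s : ℕ → ℝ) : (n : ℕ) → (Fin (2 * n) → Fin (2 * n) → K) → ℝ≥0∞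
  | 0, _ => 1
  | n + 1, A => P.nrm (Matrix.det (Matrix.of A)) ^ s (n + 1) *
      SF P s n (fun i j => A i.succ.succ j.succ.succ)

/-- The entries on the indices from `2` on. -/
def ss {m : ℕ} (x : Pr (m + 2) → K) : Pr m → K := fun q =>
  x ⟨(q.1.1.succ.succ, q.1.2.succ.succ), Fin.succ_lt_succ_iff.2 (Fin.succ_lt_succ_iff.2 q.2)⟩

theorem sk_ss {m : ℕ} (x : Pr (m + 2) → K) :
    (fun i j : Fin m => sk x i.succ.succ j.succ.succ) = sk (ss x) := by
  refine (sk_up (fun i j : Fin m => sk x i.succ.succ j.succ.succ) ?_ ?_).symm.trans ?_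
  · intro i
    exact sk_self _ _
  · intro i j
    exact sk_neg _ _ _
  · congr 1
    funext q
    exact sk_lt _ _

theorem ss_jL {m : ℕ} (u : Fin (m + 2) → K) (S : Pr (m + 2) → K) :
    ss (jL (m + 2) (u, S)) = jL m (Fin.tail (Fin.tail u), ss S) := by
  funext q
  obtain ⟨c, rfl⟩ := (sL_bij m).2 q
  rcases c with j | r
  · have h1 := jL_inl m (Fin.tail (Fin.tail u), ss S) j
    have h2 := jL_inl (m + 2) (u, S) j.succ.succ
    exact h2.trans h1.symm
  · have h1 := jL_inr m (Fin.tail (Fin.tail u), ss S) r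
    have h2 := jL_inr (m + 2) (u, S) ⟨(r.1.1.succ.succ, r.1.2.succ.succ),
      Fin.succ_lt_succ_iff.2 (Fin.succ_lt_succ_iff.2 r.2)⟩
    exact h2.trans h1.symm

/-- **Peeling off the last row and column, pointwise.** -/
theorem SF_jL (P : Peel K) : ∀ (n : ℕ) (s : ℕ → ℝ) (_ : ∀ i, 0 ≤ s i) (u : Fin (2 * n + 1) → K)
    (S : Pr (2 * n + 1) → K),
    SF P s (n + 1) (sk (jL (2 * n + 1) (u, S))) = P.W (od s) (2 * n + 1) u *
      SF P (fun i => s (i + 1)) n (fun i j => cg (UU P (2 * n) u) (sk S) i.succ j.succ)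
  | 0, s, hs, u, S => by
    have h1 : SF P s (0 + 1) (sk (jL (2 * 0 + 1) (u, S))) =
        P.nrm (Matrix.det (Matrix.of (sk (jL (2 * 0 + 1) (u, S))))) ^ s (0 + 1) * 1 := rfl
    have h2 : P.W (od s) (2 * 0 + 1) u = P.N (0 + 1) u ^ od s (2 * 0 + 1) * 1 := rfl
    have h3 := det_border P 0 u (sk S)
    rw [h1, h2, det_jL, od_odd]
    have h4 : P.nrm (bd 0 (fun j => -u j) u (Matrix.of (sk S))).det = P.N (0 + 1) u ^ 2 := by
      rw [h3]
      simp [P.nrm_one]
    have h5 : SF P (fun i => s (i + 1)) 0 (fun i j => cg (UU P (2 * 0) u) (sk S) i.succ j.succ) = 1 := rfl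
    rw [h5, mul_one, mul_one, mul_one, ENNReal.rpow_mul, ENNReal.rpow_two]
    exact congrArg (fun z => z ^ s (0 + 1)) h4
  | n + 1, s, hs, u, S => by
    have h1 : SF P s (n + 1 + 1) (sk (jL (2 * (n + 1) + 1) (u, S))) =
        P.nrm (Matrix.det (Matrix.of (sk (jL (2 * (n + 1) + 1) (u, S))))) ^ s (n + 1 + 1) *
          SF P s (n + 1) (fun i j : Fin (2 * n + 1 + 1) =>
            sk (jL (2 * n + 1 + 2) (u, S)) i.succ.succ j.succ.succ) := rfl
    have h2 : P.W (od s) (2 * (n + 1) + 1) u = P.N (2 * (n + 1) + 1) u ^ od s (2 * (n + 1) + 1) *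
        (P.N (2 * n + 2) (Fin.tail u) ^ od s (2 * n + 2) *
          P.W (od s) (2 * n + 1) (Fin.tail (Fin.tail u))) := rfl
    have h3 := det_border P (2 * (n + 1)) u (sk S)
    have h4 : (fun i j : Fin (2 * n + 1 + 1) =>
            sk (jL (2 * n + 1 + 2) (u, S)) i.succ.succ j.succ.succ) =
        sk (jL (2 * n + 1) (Fin.tail (Fin.tail u), ss S)) := by
      have h5 := sk_ss (m := 2 * n + 1 + 1) (jL (2 * n + 1 + 2) (u, S))
      have h6 : ss (m := 2 * n + 1 + 1) (jL (2 * n + 1 + 2) (u, S)) =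
        jL (2 * n + 1) (Fin.tail (Fin.tail u), ss S) := ss_jL (m := 2 * n + 1) u S
      rw [← h6]
      exact h5
    rw [h1, h4, SF_jL P n s hs, h2, det_jL, od_odd, od_even]
    have h7 : SF P (fun i => s (i + 1)) (n + 1) (fun i j : Fin (2 * (n + 1)) =>
        cg (UU P (2 * (n + 1)) u) (sk S) i.succ j.succ) =
        P.nrm (Matrix.det (Matrix.of (fun i j : Fin (2 * (n + 1)) =>
          cg (UU P (2 * (n + 1)) u) (sk S) i.succ j.succ))) ^ s (n + 1 + 1) *
        SF P (fun i => s (i + 1)) n (fun i j : Fin (2 * n) =>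
          cg (UU P (2 * n + 1 + 1) u) (sk S) i.succ.succ.succ j.succ.succ.succ) := rfl
    have h8 : (fun i j : Fin (2 * n) =>
          cg (UU P (2 * n + 1 + 1) u) (sk S) i.succ.succ.succ j.succ.succ.succ) =
        fun i j : Fin (2 * n) => cg (UU P (2 * n) (Fin.tail (Fin.tail u))) (sk (ss S)) i.succ j.succ := by
      funext i j
      have e1 := cg_two P (2 * n + 1) u (sk S) i.succ j.succ
      have e2 := cg_two P (2 * n) (Fin.tail u) (fun a b => sk S a.succ b.succ) i j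
      have e3 := sk_ss (m := 2 * n + 1) S
      rw [e1, e2]
      exact congrFun (congrFun (congrArg (cg (UU P (2 * n) (Fin.tail (Fin.tail u)))) e3) i.succ) j.succ
    have h9 : P.nrm (bd 0 (fun j => -u j) u (Matrix.of (sk S))).det ^ s (n + 1 + 1) =
        P.N (2 * (n + 1) + 1) u ^ (2 * s (n + 1 + 1)) *
        P.nrm (Matrix.det (Matrix.of (fun i j : Fin (2 * (n + 1)) =>
          cg (UU P (2 * (n + 1)) u) (sk S) i.succ j.succ))) ^ s (n + 1 + 1) := by
      rw [ENNReal.rpow_mul, ENNReal.rpow_two, ← ENNReal.mul_rpow_of_nonneg _ _ (hs _)]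
      exact congrArg (fun z => z ^ s (n + 1 + 1)) h3
    rw [h7, h8]
    have h10 : P.nrm (bd 0 (fun j => -u j) u (Matrix.of (sk S))).det ^ s (n + 1 + 1) *
        (P.W (od s) (2 * n + 1) (Fin.tail (Fin.tail u)) *
        SF P (fun i => s (i + 1)) n (fun i j : Fin (2 * n) =>
          cg (UU P (2 * n) (Fin.tail (Fin.tail u))) (sk (ss S)) i.succ j.succ)) =
      P.N (2 * (n + 1) + 1) u ^ (2 * s (n + 1 + 1)) *
        (P.N (2 * n + 2) (Fin.tail u) ^ (0 : ℝ) * P.W (od s) (2 * n + 1) (Fin.tail (Fin.tail u))) *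
        (P.nrm (Matrix.det (Matrix.of (fun i j : Fin (2 * (n + 1)) =>
          cg (UU P (2 * (n + 1)) u) (sk S) i.succ j.succ))) ^ s (n + 1 + 1) *
        SF P (fun i => s (i + 1)) n (fun i j : Fin (2 * n) =>
          cg (UU P (2 * n) (Fin.tail (Fin.tail u))) (sk (ss S)) i.succ j.succ)) := by
      rw [h9, ENNReal.rpow_zero, one_mul]
      ring
    exact h10

section meas

variable [MeasurableMul₂ K] [MeasurableAdd₂ K] [MeasurableNeg K]

theorem SF_meas (P : Peel K) : ∀ (n : ℕ) (s : ℕ → ℝ), Measurable (SF P s n)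
  | 0, s => measurable_const
  | n + 1, s => by
    have h1 : Measurable fun X : Fin (2 * n + 2) → Fin (2 * n + 2) → K => (fun (i j : Fin (2 * n)) =>
        X i.succ.succ j.succ.succ) := by fun_prop
    exact ((P.meas_det (2 * n + 2)).pow_const _).mul ((SF_meas P n s).comp h1)

/-- The integral. -/
noncomputable def SI (P : Peel K) (s : ℕ → ℝ) (n : ℕ) : ℝ≥0∞ :=
  ∫⁻ x : Pr (2 * n) → K, SF P s n (sk x) ∂(Measure.pi fun _ => P.ν)

theorem SI_zero (P : Peel K) (s : ℕ → ℝ) : SI P s 0 = 1 := by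
  have h1 : SI P s 0 = ∫⁻ x : Pr (2 * 0) → K, 1 ∂(Measure.pi fun _ => P.ν) := rfl
  rw [h1]
  simp

/-- **Peeling off the last row and column.** -/
theorem SI_succ (h2 : ∀ x : K, x + x = 0 → x = 0) (P : Peel K) (s : ℕ → ℝ) (hs : ∀ i, 0 ≤ s i)
    (n : ℕ) : SI P s (n + 1) = P.J (od s) (2 * n + 1) * SI P (fun i => s (i + 1)) n := by
  have hm : Measurable fun x : Pr (2 * n + 1 + 1) → K => SF P s (n + 1) (sk x) :=
    (SF_meas P (n + 1) s).comp sk_meas
  have h1 : SI P s (n + 1) = ∫⁻ z : (Fin (2 * n + 1) → K) × (Pr (2 * n + 1) → K),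
      SF P s (n + 1) (sk (jL (2 * n + 1) z)) ∂((Measure.pi fun _ => P.ν).prod
        (Measure.pi fun _ => P.ν)) := by
    have h3 := (jL_mp P (2 * n + 1)).lintegral_comp hm
    exact h3.symm
  have hm2 : Measurable fun z : (Fin (2 * n + 1) → K) × (Pr (2 * n + 1) → K) =>
      SF P s (n + 1) (sk (jL (2 * n + 1) z)) := hm.comp (jL_mp P (2 * n + 1)).measurable
  rw [h1, lintegral_prod _ hm2.aemeasurable]
  have h4 : ∀ u : Fin (2 * n + 1) → K, ∫⁻ S : Pr (2 * n + 1) → K,
      SF P s (n + 1) (sk (jL (2 * n + 1) (u, S))) ∂(Measure.pi fun _ => P.ν) =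
        P.W (od s) (2 * n + 1) u * SI P (fun i => s (i + 1)) n := by
    intro u
    have h5 : ∀ S : Pr (2 * n + 1) → K, SF P s (n + 1) (sk (jL (2 * n + 1) (u, S))) =
        P.W (od s) (2 * n + 1) u * SF P (fun i => s (i + 1)) n (sk (Tu P (2 * n) u S)) := by
      intro S
      rw [SF_jL P n s hs, sk_Tu h2]
    simp only [h5]
    have h6 : Measurable fun x : Pr (2 * n) → K => SF P (fun i => s (i + 1)) n (sk x) :=
      (SF_meas P n _).comp sk_meas
    have h7 := (Tu_mp P (2 * n) u).lintegral_comp h6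
    have h8 : Measurable fun S : Pr (2 * n + 1) → K =>
        SF P (fun i => s (i + 1)) n (sk (Tu P (2 * n) u S)) := h6.comp (Tu_mp P (2 * n) u).measurable
    rw [lintegral_const_mul _ h8, h7]
    rfl
  simp only [h4]
  rw [lintegral_mul_const _ (W_meas P (2 * n + 1) (od s))]
  rfl

end meas

end Pool.Agent.K6.H33.PF
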