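import Pool.Agent.K6.H33.PF.Int
import Pool.Agent.K6.H33.NM.RootN

set_option autoImplicit false

/-! # Leading principal Pfaffians -/

namespace Pool.Agent.K6.H33.PF

open MeasureTheory Matrix Set MvPolynomial Pool.Agent.K6.H33.NM
open scoped ENNReal

theorem two_le {n : ℕ} (k : Fin n) : 2 * ((k : ℕ) + 1) ≤ 2 * n := by
  have := k.isLt
  omega

/-- The determinant of the submatrix on the first `2 (k + 1)` indices. -/
noncomputable def ldet {R : Type} [CommRing R] {n : ℕ} (B : Fin (2 * n) → Fin (2 * n) → R) (k : Fin n) :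
    R :=
  Matrix.det (Matrix.of fun i j : Fin (2 * ((k : ℕ) + 1)) =>
    B (Fin.castLE (two_le k) i) (Fin.castLE (two_le k) j))

/-- The Pfaffian of the submatrix on the first `2 (k + 1)` indices of the skew matrix `x`. -/
noncomputable def lpf {R : Type} [CommRing R] {n : ℕ} (x : Pr (2 * n) → R) (k : Fin n) : R :=
  Pool.Agent.Helper929.pf (2 * ((k : ℕ) + 1)) (Matrix.of fun i j : Fin (2 * ((k : ℕ) + 1)) =>
    sk x (Fin.castLE (two_le k) i) (Fin.castLE (two_le k) j))

theorem pf_sq_dom {R : Type} [CommRing R] [IsDomain R] [CharZero R] {n : ℕ}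
    (A : Matrix (Fin n) (Fin n) R) (hA : ∀ i j, A i j = - A j i) :
    Pool.Agent.Helper929.pf n A ^ 2 = A.det := by
  set φ : R →+* FractionRing R := algebraMap _ _ with hφ
  have hinj : Function.Injective φ := IsFractionRing.injective _ _
  have : CharZero (FractionRing R) := charZero_of_injective_algebraMap (R := R) hinj
  apply hinj
  rw [map_pow, Pool.Agent.Helper929.pf_map, Pool.Agent.Helper929.pf_sq, RingHom.map_det]
  · rfl
  · intro i j
    rw [Matrix.map_apply, Matrix.map_apply, hA i j, map_neg]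

theorem lpf_sq {R : Type} [CommRing R] [IsDomain R] [CharZero R] {n : ℕ} (x : Pr (2 * n) → R)
    (k : Fin n) : lpf x k ^ 2 = ldet (sk x) k := by
  unfold lpf ldet
  exact pf_sq_dom _ fun i j => sk_neg _ _ _

theorem ldet_castSucc {R : Type} [CommRing R] {n : ℕ}
    (B : Fin (2 * (n + 1)) → Fin (2 * (n + 1)) → R) (k : Fin n) :
    ldet B k.castSucc = ldet (fun i j : Fin (2 * n) => B i.castSucc.castSucc j.castSucc.castSucc) k :=
  rfl

theorem ldet_last {R : Type} [CommRing R] {n : ℕ}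
    (B : Fin (2 * (n + 1)) → Fin (2 * (n + 1)) → R) :
    ldet B (Fin.last n) = Matrix.det (Matrix.of B) := rfl

theorem det_rev {R : Type} [CommRing R] {m : ℕ} (B : Fin m → Fin m → R) :
    Matrix.det (Matrix.of fun i j => B (Fin.rev j) (Fin.rev i)) = Matrix.det (Matrix.of B) := by
  have h1 : (Matrix.of fun i j => B (Fin.rev j) (Fin.rev i)) =
      ((Matrix.of B)ᵀ).submatrix Fin.revPerm Fin.revPerm := rfl
  rw [h1, Matrix.det_submatrix_equiv_self, Matrix.det_transpose]

section

variable {K : Type} [CommRing K] [MeasurableSpace K]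

theorem SF_lead (P : Peel K) : ∀ (n : ℕ) (s : ℕ → ℝ) (B : Fin (2 * n) → Fin (2 * n) → K),
    SF P s n (fun i j => B (Fin.rev j) (Fin.rev i)) = ∏ k : Fin n, P.nrm (ldet B k) ^ s ((k : ℕ) + 1)
  | 0, s, B => by simp [SF]
  | n + 1, s, B => by
    rw [Fin.prod_univ_castSucc]
    have h0 : SF P s (n + 1) (fun i j => B (Fin.rev j) (Fin.rev i)) =
        P.nrm (Matrix.det (Matrix.of fun i j : Fin (2 * (n + 1)) => B (Fin.rev j) (Fin.rev i))) ^
          s (n + 1) * SF P s n (fun i j : Fin (2 * n) => (fun i j : Fin (2 * n + 1 + 1) =>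
            B (Fin.rev j) (Fin.rev i)) i.succ.succ j.succ.succ) := rfl
    rw [h0, det_rev]
    have h1 : (fun i j : Fin (2 * n) => (fun i j : Fin (2 * n + 1 + 1) =>
            B (Fin.rev j) (Fin.rev i)) i.succ.succ j.succ.succ) =
        fun i j : Fin (2 * n) => (fun a b : Fin (2 * n) => B a.castSucc.castSucc b.castSucc.castSucc)
          (Fin.rev j) (Fin.rev i) := by
      funext i j
      have e : ∀ k : Fin (2 * n), Fin.rev (k.succ.succ : Fin (2 * n + 1 + 1)) =
          (Fin.rev k).castSucc.castSucc := by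
        intro k
        rw [Fin.rev_succ, Fin.rev_succ]
      simp only
      rw [e i, e j]
    rw [h1, SF_lead P n s (fun a b : Fin (2 * n) => B a.castSucc.castSucc b.castSucc.castSucc)]
    simp only [ldet_castSucc, ldet_last, Fin.val_castSucc, Fin.val_last]
    ring

/-- The reversal of the indices. -/
def rvq {m : ℕ} (q : Pr m) : Pr m := ⟨(Fin.rev q.1.2, Fin.rev q.1.1), Fin.rev_lt_rev.2 q.2⟩

theorem rvq_inj {m : ℕ} : Function.Injective (rvq : Pr m → Pr m) := by
  intro a b h
  simp only [rvq, Subtype.mk.injEq, Prod.mk.injEq, Fin.rev_inj] at h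
  exact Subtype.ext (Prod.ext h.2 h.1)

theorem sk_rvq {R : Type} [CommRing R] {m : ℕ} (x : Pr m → R) :
    sk (fun q => x (rvq q)) = fun i j => sk x (Fin.rev j) (Fin.rev i) := by
  have h1 : (fun q => x (rvq q)) = up (fun i j => sk x (Fin.rev j) (Fin.rev i)) := by
    funext q
    exact (sk_lt x (Fin.rev_lt_rev.2 q.2)).symm
  rw [h1]
  refine sk_up _ ?_ ?_
  · intro i
    exact sk_self _ _
  · intro i j
    exact sk_neg _ _ _

variable [MeasurableMul₂ K] [MeasurableAdd₂ K] [MeasurableNeg K]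

theorem ldet_meas (P : Peel K) {n : ℕ} (k : Fin n) :
    Measurable fun x : Pr (2 * n) → K => P.nrm (ldet (sk x) k) := by
  have h1 : Measurable fun (B : Fin (2 * n) → Fin (2 * n) → K) (i j : Fin (2 * ((k : ℕ) + 1))) =>
      B (Fin.castLE (two_le k) i) (Fin.castLE (two_le k) j) := by fun_prop
  exact ((P.meas_det _).comp h1).comp sk_meas

theorem int_ldet (P : Peel K) (n : ℕ) (s : ℕ → ℝ) :
    ∫⁻ x : Pr (2 * n) → K, ∏ k : Fin n, P.nrm (ldet (sk x) k) ^ s ((k : ℕ) + 1)
      ∂(Measure.pi fun _ => P.ν) = SI P s n := by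
  have hm : Measurable fun x : Pr (2 * n) → K => SF P s n (sk x) := (SF_meas P n s).comp sk_meas
  rw [SI, ← (inj_mp P (rvq : Pr (2 * n) → Pr (2 * n)) rvq_inj).lintegral_comp hm]
  refine lintegral_congr fun x => ?_
  have h1 := SF_lead P n s (sk x)
  rw [← h1, sk_rvq]

/-- The exponents `a 1, 0, a 2, 0, ...`. -/
def oa (a : ℕ → ℕ) (m : ℕ) : ℕ := if m % 2 = 1 then a ((m + 1) / 2) else 0

theorem od_oa (a : ℕ → ℕ) (σ : ℝ) : od (fun i => (a i : ℝ) * σ / 2) = fun i => (oa a i : ℝ) * σ := by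
  funext m
  unfold od oa
  split_ifs
  · ring
  · simp

theorem int_npf [IsDomain K] [CharZero K] (P : Peel K) {n : ℕ} (a : Fin n → ℕ) (σ : ℝ) (hσ : 0 ≤ σ) :
    ∫⁻ x : Pr (2 * n) → K, P.nrm (∏ k, lpf x k ^ a k) ^ σ ∂(Measure.pi fun _ => P.ν) =
      SI P (fun i => (ex a i : ℝ) * σ / 2) n := by
  rw [← int_ldet P n]
  refine lintegral_congr fun x => ?_
  rw [nrm_nested P a σ hσ]
  refine Finset.prod_congr rfl fun k _ => ?_
  rw [← lpf_sq, sq, P.nrm_mul, ← sq, ← ENNReal.rpow_two, ← ENNReal.rpow_mul]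
  congr 1
  ring

end

/-- The product of the powers of the leading principal Pfaffians of the generic skew matrix. -/
noncomputable def npf (n : ℕ) (a : Fin n → ℕ) : MvPolynomial (Pr (2 * n)) ℤ :=
  ∏ k, lpf X k ^ a k

theorem map_sk {R S : Type} [CommRing R] [CommRing S] (φ : R →+* S) {m : ℕ} (x : Pr m → R)
    (i j : Fin m) : φ (sk x i j) = sk (fun q => φ (x q)) i j := by
  unfold sk
  split_ifs
  · rfl
  · rw [map_neg]
  · rw [map_zero]

theorem map_lpf {R S : Type} [CommRing R] [CommRing S] (φ : R →+* S) {n : ℕ} (x : Pr (2 * n) → R)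
    (k : Fin n) : φ (lpf x k) = lpf (fun q => φ (x q)) k := by
  unfold lpf
  rw [Pool.Agent.Helper929.pf_map]
  congr 1
  ext i j
  exact map_sk φ x _ _

theorem eval_npf {n : ℕ} (a : Fin n → ℕ) (x : Pr (2 * n) → ℂ) :
    eval x (map (Int.castRingHom ℂ) (npf n a)) = ∏ k, lpf x k ^ a k := by
  unfold npf
  rw [map_prod, map_prod]
  refine Finset.prod_congr rfl fun k _ => ?_
  rw [map_pow, map_pow]
  have h1 := map_lpf ((eval x).comp (MvPolynomial.map (Int.castRingHom ℂ)))
    (fun q => (X q : MvPolynomial (Pr (2 * n)) ℤ)) k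
  simp only [RingHom.comp_apply, map_X, eval_X] at h1
  rw [h1]

theorem aeval_npf {R : Type} [CommRing R] {n : ℕ} (a : Fin n → ℕ) (x : Pr (2 * n) → R) :
    aeval x (npf n a) = ∏ k, lpf x k ^ a k := by
  unfold npf
  rw [map_prod]
  refine Finset.prod_congr rfl fun k _ => ?_
  rw [map_pow]
  have h1 := map_lpf ((aeval x : MvPolynomial (Pr (2 * n)) ℤ →ₐ[ℤ] R) : _ →+* R)
    (fun q => (X q : MvPolynomial (Pr (2 * n)) ℤ)) k
  simp only [RingHom.coe_coe, aeval_X] at h1
  rw [h1]

theorem sk_smul {m : ℕ} (c : ℂ) (x : Pr m → ℂ) (i j : Fin m) :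
    sk (fun q => c * x q) i j = c * sk x i j := by
  unfold sk
  split_ifs
  · rfl
  · ring
  · ring

theorem pf_smul {R : Type} [CommRing R] (c : R) : ∀ (n : ℕ) (A : Matrix (Fin (2 * n)) (Fin (2 * n)) R),
    Pool.Agent.Helper929.pf (2 * n) (c • A) = c ^ n * Pool.Agent.Helper929.pf (2 * n) A
  | 0, A => by
    have h1 : ∀ B : Matrix (Fin (2 * 0)) (Fin (2 * 0)) R, Pool.Agent.Helper929.pf (2 * 0) B = 1 :=
      fun B => rfl
    rw [h1, h1]
    simp
  | n + 1, A => by
    have h1 : ∀ B : Matrix (Fin (2 * (n + 1))) (Fin (2 * (n + 1))) R,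
        Pool.Agent.Helper929.pf (2 * (n + 1)) B = ∑ j : Fin (2 * n + 1), (-1) ^ (j : ℕ) *
          (show Matrix (Fin (2 * n + 2)) (Fin (2 * n + 2)) R from B) 0 j.succ *
        Pool.Agent.Helper929.pf (2 * n) ((show Matrix (Fin (2 * n + 2)) (Fin (2 * n + 2)) R from B).submatrix
          (fun k => (j.succAbove k).succ) (fun k => (j.succAbove k).succ)) := fun B => rfl
    rw [h1, h1, Finset.mul_sum]
    refine Finset.sum_congr rfl fun j _ => ?_
    have h2 := pf_smul c n ((show Matrix (Fin (2 * n + 2)) (Fin (2 * n + 2)) R from A).submatrix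
          (fun k => (j.succAbove k).succ) (fun k => (j.succAbove k).succ))
    have h3 : (show Matrix (Fin (2 * n + 2)) (Fin (2 * n + 2)) R from c • A).submatrix
          (fun k => (j.succAbove k).succ) (fun k => (j.succAbove k).succ) =
        c • (show Matrix (Fin (2 * n + 2)) (Fin (2 * n + 2)) R from A).submatrix
          (fun k => (j.succAbove k).succ) (fun k => (j.succAbove k).succ) := rfl
    have h4 : (show Matrix (Fin (2 * n + 2)) (Fin (2 * n + 2)) R from c • A) 0 j.succ =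
        c * (show Matrix (Fin (2 * n + 2)) (Fin (2 * n + 2)) R from A) 0 j.succ := rfl
    rw [h3, h2, h4]
    ring

theorem lpf_smul {n : ℕ} (c : ℂ) (x : Pr (2 * n) → ℂ) (k : Fin n) :
    lpf (fun q => c * x q) k = c ^ ((k : ℕ) + 1) * lpf x k := by
  unfold lpf
  rw [← pf_smul]
  congr 1
  ext i j
  simp only [Matrix.of_apply, Matrix.smul_apply, smul_eq_mul]
  exact sk_smul c x _ _

end Pool.Agent.K6.H33.PF
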