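import Pool.Agent.K6.H33.PF.Sk

set_option autoImplicit false

/-! # Skew symmetric matrices: the measures -/

namespace Pool.Agent.K6.H33.PF

open MeasureTheory Matrix Set Pool.Agent.K6.H33.NM
open scoped ENNReal

variable {K : Type} [CommRing K] [MeasurableSpace K]

/-- Coordinates of a product measure along an injective map. -/
theorem inj_mp (P : Peel K) {α β : Type} [Fintype α] [Fintype β] (g : α → β)
    (hg : Function.Injective g) : MeasurePreserving (fun (x : β → K) (a : α) => x (g a))
      (Measure.pi fun _ => P.ν) (Measure.pi fun _ => P.ν) := by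
  classical
  have hm : Measurable (fun (x : β → K) (a : α) => x (g a)) := by fun_prop
  refine ⟨hm, (Measure.pi_eq fun s hs => ?_).symm⟩
  rw [Measure.map_apply hm (MeasurableSet.univ_pi hs)]
  have h1 : (fun (x : β → K) (a : α) => x (g a)) ⁻¹' (univ.pi s) =
      univ.pi fun b => ⋂ a ∈ {a : α | g a = b}, s a := by
    ext x
    simp only [mem_preimage, mem_univ_pi, mem_iInter, mem_setOf_eq]
    constructor
    · intro h b a hab
      rw [← hab]
      exact h a
    · intro h a
      exact h (g a) a rfl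
  rw [h1, Measure.pi_pi]
  have h2 : ∀ b ∉ Set.range g, P.ν (⋂ a ∈ {a : α | g a = b}, s a) = 1 := by
    intro b hb
    have : (⋂ a ∈ {a : α | g a = b}, s a) = univ := by
      refine Set.eq_univ_of_forall fun x => ?_
      simp only [mem_iInter, mem_setOf_eq]
      intro a hab
      exact absurd ⟨a, hab⟩ hb
    rw [this, measure_univ]
  have h3 : ∀ a, P.ν (⋂ a' ∈ {a' : α | g a' = g a}, s a') = P.ν (s a) := by
    intro a
    congr 1
    ext x
    simp only [mem_iInter, mem_setOf_eq]
    constructor
    · intro h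
      exact h a rfl
    · intro h a' ha'
      rw [hg ha']
      exact h
  rw [← Finset.prod_subset (Finset.subset_univ (Finset.univ.image g))]
  · rw [Finset.prod_image (fun a _ a' _ h => hg h)]
    exact Finset.prod_congr rfl fun a _ => h3 a
  · intro b _ hb
    apply h2
    rintro ⟨a, ha⟩
    exact hb (Finset.mem_image.2 ⟨a, Finset.mem_univ a, ha⟩)

theorem sum_mp (P : Peel K) {α β : Type} [Fintype α] [Fintype β] :
    MeasurePreserving (fun (x : α ⊕ β → K) => ((fun a => x (Sum.inl a)), (fun b => x (Sum.inr b))))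
      (Measure.pi fun _ => P.ν) ((Measure.pi fun _ => P.ν).prod (Measure.pi fun _ => P.ν)) :=
  measurePreserving_sumPiEquivProdPi (X := fun _ : α ⊕ β => K) (fun _ => P.ν)

theorem join_mp' (P : Peel K) {α β : Type} [Fintype α] [Fintype β] :
    MeasurePreserving (fun (z : (α → K) × (β → K)) => (Sum.elim z.1 z.2 : α ⊕ β → K))
      ((Measure.pi fun _ => P.ν).prod (Measure.pi fun _ => P.ν)) (Measure.pi fun _ => P.ν) := by
  have h := measurePreserving_sumPiEquivProdPi_symm (X := fun _ : α ⊕ β => K) (fun _ => P.ν)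
  have e : (⇑(MeasurableEquiv.sumPiEquivProdPi (fun _ : α ⊕ β => K)).symm) =
      (fun (z : (α → K) × (β → K)) => (Sum.elim z.1 z.2 : α ⊕ β → K)) := by
    funext z c
    rcases c with c | c <;> rfl
  rw [e] at h
  exact h

/-- The coordinates of a matrix at the pairs and the opposite pairs. -/
theorem D_mp (P : Peel K) (m : ℕ) : MeasurePreserving
    (fun (X : Fin m × Fin m → K) (q : Pr m) => X (q.1.1, q.1.2) * ga P 1 1 + X (q.1.2, q.1.1) * de P 1 1)
    (Measure.pi fun _ => P.ν) (Measure.pi fun _ => P.ν) := by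
  set g : Pr m ⊕ Pr m → Fin m × Fin m := Sum.elim (fun q => (q.1.1, q.1.2)) (fun q => (q.1.2, q.1.1))
    with hg
  have hginj : Function.Injective g := by
    rintro (q | q) (r | r) h
    · simp only [hg, Sum.elim_inl, Prod.mk.injEq] at h
      exact congrArg Sum.inl (Subtype.ext (Prod.ext h.1 h.2))
    · simp only [hg, Sum.elim_inl, Sum.elim_inr, Prod.mk.injEq] at h
      have h1 := q.2
      have h2 := r.2
      rw [h.1, h.2] at h1
      exact absurd h1 h2.not_gt
    · simp only [hg, Sum.elim_inl, Sum.elim_inr, Prod.mk.injEq] at h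
      have h1 := q.2
      have h2 := r.2
      rw [← h.1, ← h.2] at h2
      exact absurd h1 h2.not_gt
    · simp only [hg, Sum.elim_inr, Prod.mk.injEq] at h
      exact congrArg Sum.inr (Subtype.ext (Prod.ext h.2 h.1))
  have h1 := inj_mp P g hginj
  have h2 := sum_mp P (α := Pr m) (β := Pr m)
  have h3 := (measurePreserving_arrowProdEquivProdArrow K K (Pr m) (fun _ => P.ν)
    (fun _ => P.ν)).symm
  have h4 := measurePreserving_snd.comp (rot_spec P 1 1).2.2.2
  have h5 := measurePreserving_pi (fun _ : Pr m => P.ν.prod P.ν) (fun _ : Pr m => P.ν) (fun _ => h4)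
  exact h5.comp (h3.comp (h2.comp h1))

theorem mp_unc' (P : Peel K) (n : ℕ) : MeasurePreserving
    (fun (X : Fin n → Fin n → K) (q : Fin n × Fin n) => X q.1 q.2)
    (Measure.pi fun _ => Measure.pi fun _ => P.ν) (Measure.pi fun _ => P.ν) := by
  have hm : Measurable (fun (X : Fin n → Fin n → K) (q : Fin n × Fin n) => X q.1 q.2) := by
    fun_prop
  refine ⟨hm, (Measure.pi_eq fun s hs => ?_).symm⟩
  rw [Measure.map_apply hm (MeasurableSet.univ_pi hs)]
  have h1 : (fun (X : Fin n → Fin n → K) (q : Fin n × Fin n) => X q.1 q.2) ⁻¹'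
      (univ.pi s) = univ.pi fun i => univ.pi fun j => s (i, j) := by
    ext X
    simp only [mem_preimage, mem_univ_pi]
    constructor
    · intro h i j
      exact h (i, j)
    · intro h q
      exact h q.1 q.2
  rw [h1, Measure.pi_pi]
  simp only [Measure.pi_pi]
  rw [Fintype.prod_prod_type]

theorem mp_cur (P : Peel K) (n : ℕ) : MeasurePreserving
    (fun (X : Fin n × Fin n → K) (i j : Fin n) => X (i, j)) (Measure.pi fun _ => P.ν)
    (Measure.pi fun _ => Measure.pi fun _ => P.ν) := by
  have hm : Measurable (fun (X : Fin n × Fin n → K) (i j : Fin n) => X (i, j)) := by fun_prop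
  have h := mp_unc' P n
  refine ⟨hm, ?_⟩
  rw [← h.map_eq, Measure.map_map hm h.measurable]
  exact Measure.map_id

theorem mp_transpose (P : Peel K) (n : ℕ) : MeasurePreserving
    (fun (X : Fin n → Fin n → K) (i j : Fin n) => X j i)
    (Measure.pi fun _ => Measure.pi fun _ => P.ν) (Measure.pi fun _ => Measure.pi fun _ => P.ν) := by
  have h1 := inj_mp P (fun q : Fin n × Fin n => (q.2, q.1)) (by
    intro a b h
    simp only [Prod.mk.injEq] at h
    exact Prod.ext h.2 h.1)
  exact (mp_cur P n).comp (h1.comp (mp_unc' P n))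

/-- Congruences of arbitrary matrices preserve the measure. -/
theorem cg_mp (P : Peel K) (n : ℕ) (u : Fin (n + 1) → K) : MeasurePreserving
    (fun (X : Fin (n + 1) → Fin (n + 1) → K) => cg (UU P n u) X)
    (Measure.pi fun _ => Measure.pi fun _ => P.ν) (Measure.pi fun _ => Measure.pi fun _ => P.ν) := by
  have h1 := measurePreserving_pi (fun _ : Fin (n + 1) => Measure.pi fun _ : Fin (n + 1) => P.ν)
    (fun _ : Fin (n + 1) => Measure.pi fun _ : Fin (n + 1) => P.ν) (fun _ : Fin (n + 1) => UU_mp P n u)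
  exact (mp_transpose P (n + 1)).comp (h1.comp ((mp_transpose P (n + 1)).comp h1))

section meas

variable [MeasurableMul₂ K] [MeasurableAdd₂ K] [MeasurableNeg K]

theorem sk_meas {m : ℕ} : Measurable (fun (x : Pr m → K) (i j : Fin m) => sk x i j) := by
  refine measurable_pi_lambda _ fun i => measurable_pi_lambda _ fun j => ?_
  rcases lt_trichotomy i j with h | h | h
  · simp only [sk_lt _ h]; exact measurable_pi_apply _
  · subst h
    simp only [sk_self]; exact measurable_const
  · have : (fun x : Pr m → K => sk x i j) = fun x => - x ⟨(j, i), h⟩ := by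
      funext x
      rw [sk_neg, sk_lt _ h]
    rw [this]
    exact (measurable_pi_apply _).neg

theorem cg_meas {m : ℕ} (G : Matrix (Fin m) (Fin m) K) :
    Measurable (fun (B : Fin m → Fin m → K) => cg G B) := by
  refine measurable_pi_lambda _ fun i => measurable_pi_lambda _ fun j => ?_
  unfold cg
  simp only [Matrix.vecMul, dotProduct]
  refine Finset.measurable_sum _ fun a _ => ?_
  refine Measurable.mul ?_ measurable_const
  refine Finset.measurable_sum _ fun b _ => ?_
  refine Measurable.mul ?_ measurable_const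
  fun_prop

/-- **Congruences of skew matrices preserve the measure.** -/
theorem skew_mp (P : Peel K) (n : ℕ) (u : Fin (n + 1) → K) : MeasurePreserving
    (fun (x : Pr (n + 1) → K) => up (cg (UU P n u) (sk x))) (Measure.pi fun _ => P.ν)
    (Measure.pi fun _ => P.ν) := by
  have hD := (D_mp P (n + 1)).comp (mp_unc' P (n + 1))
  have hG := cg_mp P n u
  have hneg : ga P 1 1 + de P 1 1 = 0 := by
    have := (rot_spec P 1 1).1
    linear_combination this
  have hm : Measurable (fun (x : Pr (n + 1) → K) => up (cg (UU P n u) (sk x))) := by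
    have h1 : Measurable (fun (x : Pr (n + 1) → K) => cg (UU P n u) (sk x)) :=
      (cg_meas (UU P n u)).comp sk_meas
    unfold up
    exact measurable_pi_lambda _ fun q => (measurable_pi_apply q.1.2).comp
      ((measurable_pi_apply q.1.1).comp h1)
  refine MeasurePreserving.of_semiconj hD hG ?_ hm
  intro X
  funext q
  simp only [Function.comp_apply]
  have h1 : sk (fun q : Pr (n + 1) => X q.1.1 q.1.2 * ga P 1 1 + X q.1.2 q.1.1 * de P 1 1) =
      fun a b => X a b * ga P 1 1 + X b a * de P 1 1 := by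
    refine sk_up (fun a b => X a b * ga P 1 1 + X b a * de P 1 1) ?_ ?_
    · intro i
      linear_combination X i i * hneg
    · intro i j
      linear_combination (X i j + X j i) * hneg
  have h2 := congrFun (congrFun (congrArg (cg (UU P n u)) h1) q.1.1) q.1.2
  rw [cg_lin] at h2
  exact h2.symm

/-- The congruence followed by the restriction to the indices `1, ..., n`. -/
noncomputable def Tu (P : Peel K) (n : ℕ) (u : Fin (n + 1) → K) (x : Pr (n + 1) → K) : Pr n → K :=
  up fun i j => cg (UU P n u) (sk x) i.succ j.succ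

theorem Tu_mp (P : Peel K) (n : ℕ) (u : Fin (n + 1) → K) :
    MeasurePreserving (Tu P n u) (Measure.pi fun _ => P.ν) (Measure.pi fun _ => P.ν) := by
  have h1 := inj_mp P (fun q : Pr n => (⟨(q.1.1.succ, q.1.2.succ), Fin.succ_lt_succ_iff.2 q.2⟩ :
    Pr (n + 1))) (by
    intro a b h
    simp only [Subtype.mk.injEq, Prod.mk.injEq, Fin.succ_inj] at h
    exact Subtype.ext (Prod.ext h.1 h.2))
  exact h1.comp (skew_mp P n u)

theorem sk_Tu (h2 : ∀ x : K, x + x = 0 → x = 0) (P : Peel K) (n : ℕ) (u : Fin (n + 1) → K)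
    (x : Pr (n + 1) → K) : sk (Tu P n u x) = fun i j => cg (UU P n u) (sk x) i.succ j.succ := by
  refine sk_up _ ?_ ?_
  · intro i
    exact cg_self h2 _ _ (sk_neg x) _
  · intro i j
    exact cg_skew _ _ (sk_neg x) _ _

end meas

/-! ### Splitting off the last index -/

/-- The pairs of `Fin (m + 1)`: those with the last index, and the others. -/
def sL (m : ℕ) : Fin m ⊕ Pr m → Pr (m + 1) := Sum.elim
  (fun j => ⟨(j.castSucc, Fin.last m), Fin.castSucc_lt_last j⟩)
  (fun q => ⟨(q.1.1.castSucc, q.1.2.castSucc), Fin.castSucc_lt_castSucc_iff.2 q.2⟩)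

theorem sL_bij (m : ℕ) : Function.Bijective (sL m) := by
  constructor
  · rintro (q | q) (r | r) h
    · simp only [sL, Sum.elim_inl, Subtype.mk.injEq, Prod.mk.injEq, Fin.castSucc_inj] at h
      exact congrArg Sum.inl h.1
    · simp only [sL, Sum.elim_inl, Sum.elim_inr, Subtype.mk.injEq, Prod.mk.injEq] at h
      exact absurd h.2.symm (Fin.castSucc_lt_last _).ne
    · simp only [sL, Sum.elim_inl, Sum.elim_inr, Subtype.mk.injEq, Prod.mk.injEq] at h
      exact absurd h.2 (Fin.castSucc_lt_last _).ne
    · simp only [sL, Sum.elim_inr, Subtype.mk.injEq, Prod.mk.injEq, Fin.castSucc_inj] at h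
      exact congrArg Sum.inr (Subtype.ext (Prod.ext h.1 h.2))
  · rintro ⟨⟨i, j⟩, hij⟩
    simp only at hij
    revert hij
    refine Fin.lastCases ?_ (fun j => ?_) j
    · intro hij
      obtain ⟨i', rfl⟩ := Fin.exists_castSucc_eq.2 hij.ne
      exact ⟨Sum.inl i', rfl⟩
    · intro hij
      obtain ⟨i', rfl⟩ := Fin.exists_castSucc_eq.2 (hij.trans (Fin.castSucc_lt_last j)).ne
      exact ⟨Sum.inr ⟨(i', j), Fin.castSucc_lt_castSucc_iff.1 hij⟩, rfl⟩

noncomputable def eL (m : ℕ) : Fin m ⊕ Pr m ≃ Pr (m + 1) := Equiv.ofBijective _ (sL_bij m)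

/-- The matrix with the last column `u` and the remaining entries `S`. -/
noncomputable def jL (m : ℕ) (z : (Fin m → K) × (Pr m → K)) : Pr (m + 1) → K :=
  fun q => Sum.elim z.1 z.2 ((eL m).symm q)

theorem jL_mp (P : Peel K) (m : ℕ) : MeasurePreserving (jL m)
    ((Measure.pi fun _ => P.ν).prod (Measure.pi fun _ => P.ν)) (Measure.pi fun _ => P.ν) :=
  (inj_mp P (eL m).symm (eL m).symm.injective).comp (join_mp' P)

theorem jL_inl (m : ℕ) (z : (Fin m → K) × (Pr m → K)) (j : Fin m) :
    jL m z ⟨(j.castSucc, Fin.last m), Fin.castSucc_lt_last j⟩ = z.1 j := by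
  have : (eL m).symm ⟨(j.castSucc, Fin.last m), Fin.castSucc_lt_last j⟩ = Sum.inl j := by
    rw [Equiv.symm_apply_eq]; rfl
  unfold jL
  rw [this]; rfl

theorem jL_inr (m : ℕ) (z : (Fin m → K) × (Pr m → K)) (q : Pr m) :
    jL m z ⟨(q.1.1.castSucc, q.1.2.castSucc), Fin.castSucc_lt_castSucc_iff.2 q.2⟩ = z.2 q := by
  have : (eL m).symm ⟨(q.1.1.castSucc, q.1.2.castSucc), Fin.castSucc_lt_castSucc_iff.2 q.2⟩ =
      Sum.inr q := by
    rw [Equiv.symm_apply_eq]; rfl
  unfold jL
  rw [this]; rfl

theorem sk_jL (m : ℕ) (u : Fin m → K) (S : Pr m → K) (i j : Fin m) :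
    sk (jL m (u, S)) i.castSucc j.castSucc = sk S i j := by
  have key : ∀ i j : Fin m, i < j → sk (jL m (u, S)) i.castSucc j.castSucc = sk S i j := by
    intro i j h
    rw [sk_lt _ (Fin.castSucc_lt_castSucc_iff.2 h), sk_lt _ h]
    exact jL_inr m (u, S) ⟨(i, j), h⟩
  rcases lt_trichotomy i j with h | h | h
  · exact key i j h
  · subst h; rw [sk_self, sk_self]
  · rw [sk_neg, key j i h, ← sk_neg]

theorem sk_jL_last (m : ℕ) (u : Fin m → K) (S : Pr m → K) (j : Fin m) :
    sk (jL m (u, S)) j.castSucc (Fin.last m) = u j := by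
  rw [sk_lt _ (Fin.castSucc_lt_last j)]
  exact jL_inl m (u, S) j

/-- The determinant in terms of the bordered matrix. -/
theorem det_jL (m : ℕ) (u : Fin m → K) (S : Pr m → K) :
    (Matrix.of (sk (jL m (u, S)))).det = (bd 0 (fun j => - u j) u (Matrix.of (sk S))).det := by
  have h1 : Matrix.of (sk (jL m (u, S))) =
      (bd 0 (fun j => - u j) u (Matrix.of (sk S))).submatrix (finRotate (m + 1)) (finRotate (m + 1)) := by
    ext i j
    rw [Matrix.submatrix_apply, Matrix.of_apply]
    refine Fin.lastCases ?_ (fun i => ?_) i <;> refine Fin.lastCases ?_ (fun j => ?_) j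
    · rw [finRotate_last, sk_self]
      simp [bd]
    · rw [finRotate_last, finRotate_succ_apply, Fin.coeSucc_eq_succ, sk_neg, sk_jL_last]
      simp [bd]
    · rw [finRotate_last, finRotate_succ_apply, Fin.coeSucc_eq_succ, sk_jL_last]
      simp [bd]
    · rw [finRotate_succ_apply, finRotate_succ_apply, Fin.coeSucc_eq_succ, Fin.coeSucc_eq_succ, sk_jL]
      simp [bd]
  rw [h1, Matrix.det_submatrix_equiv_self]

end Pool.Agent.K6.H33.PF
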