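import Pool.Agent.K6.H33.PF.Fin

set_option autoImplicit false
set_option linter.unusedSectionVars false

/-! # The `p`-adic integral of the nested Pfaffians -/

namespace Pool.Agent.K6.H33.PF

open MeasureTheory Set Pool.Agent.W427.SMC Pool.Agent.TH192.PA Pool.Agent.K6.H33.NM
open scoped ENNReal NNReal

attribute [local instance] msZ bsZ

section

variable (p : ℕ) [Fact p.Prime]

/-- The denominator. -/
noncomputable def SDQ : ℕ → (ℕ → ℕ) → Polynomial ℂ
  | 0, _ => 1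
  | n + 1, a => DP p (oa a) (2 * n + 1) * SDQ n (fun i => a (i + 1))

/-- The numerator. -/
noncomputable def SNQ : ℕ → (ℕ → ℕ) → Polynomial ℂ
  | 0, _ => 1
  | n + 1, a => NP p (oa a) (2 * n + 1) * SNQ n (fun i => a (i + 1))

theorem SI_poly (σ : ℝ) (hσ : 0 ≤ σ) : ∀ (n : ℕ) (a : ℕ → ℕ),
    (SDQ p n a).eval (tr' p σ : ℂ) * ((SI (PP p) (fun i => (a i : ℝ) * σ / 2) n).toReal : ℂ) =
      (SNQ p n a).eval (tr' p σ : ℂ)
  | 0, a => by rw [SI_zero]; simp [SDQ, SNQ]
  | n + 1, a => by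
    have h1 := J_poly p (oa a) σ hσ (2 * n + 1)
    have h2 := SI_poly σ hσ n (fun i => a (i + 1))
    rw [SI_succ (fun x h => add_self_eq_zero.1 h) (PP p) (fun i => (a i : ℝ) * σ / 2)
      (fun i => by positivity), od_oa, ENNReal.toReal_mul, SDQ, SNQ,
      Polynomial.eval_mul, Polynomial.eval_mul, ← h1, ← h2]
    push_cast
    ring

theorem SDQ_zero : ∀ (n : ℕ) (a : ℕ → ℕ), (SDQ p n a).eval 0 ≠ 0
  | 0, a => by simp [SDQ]
  | n + 1, a => by
    rw [SDQ, Polynomial.eval_mul]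
    exact mul_ne_zero (DP_zero p _ _) (SDQ_zero n _)

theorem SDQ_root (T : ℂ) : ∀ (n : ℕ) (a : ℕ → ℕ), (SDQ p n a).eval T = 0 →
    ∃ r m, r + m + 1 ≤ n ∧ a (r + m + 1) ≠ 0 ∧
      T ^ (∑ i ∈ Finset.range (m + 1), a (r + i + 1)) = (p : ℂ) ^ (2 * m + 1)
  | 0, a, h => by simp [SDQ] at h
  | n + 1, a, h => by
    rw [SDQ, Polynomial.eval_mul] at h
    rcases mul_eq_zero.1 h with h | h
    · obtain ⟨M, h1, h2, h3⟩ := DP_root p (oa a) T (2 * n + 1) h
      rcases Nat.even_or_odd' M with ⟨m, hm | hm⟩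
      · subst hm
        refine ⟨0, m, by omega, ?_, ?_⟩
        · unfold oa at h2
          rw [if_pos (by omega)] at h2
          have : (2 * m + 1 + 1) / 2 = 0 + m + 1 := by omega
          rwa [this] at h2
        · rw [AA_oa] at h3
          simpa using h3
      · exfalso
        apply h2
        unfold oa
        rw [if_neg (by omega)]
    · obtain ⟨r, m, h1, h2, h3⟩ := SDQ_root T n _ h
      refine ⟨r + 1, m, by omega, ?_, ?_⟩
      · have : r + 1 + m + 1 = r + m + 1 + 1 := by omega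
        rw [this]; exact h2
      · have h4 : ∀ i, r + 1 + i + 1 = r + i + 1 + 1 := fun i => by omega
        simp only [h4]
        exact h3

end

theorem root_of_SDQ (p : ℕ) [Fact p.Prime] {n : ℕ} (a : Fin n → ℕ) (ha : Close 2 a) (b : Polynomial ℂ)
    (hb : Pool.Agent.H628R4.TP.IsBFunction (MvPolynomial.map (Int.castRingHom ℂ) (npf n a)) b)
    (T : ℂ) (hT : (SDQ p n (ex a)).eval T = 0) :
    b.eval ((-Real.log ‖T‖ / Real.log p : ℝ) : ℂ) = 0 := by
  obtain ⟨r, m, h1, h2, h3⟩ := SDQ_root p T n (ex a) hT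
  have hA : 0 < ∑ i ∈ Finset.range (m + 1), ex a (r + i + 1) := by
    rw [Finset.sum_range_succ]
    omega
  rw [log_root p T _ (2 * m) hA h3]
  have h4 := root_npf a ha b hb r m h1 h2
  push_cast at h4 ⊢
  exact h4

attribute [local instance] msZ bsZ in
theorem zeta_npf (p : ℕ) [Fact p.Prime] {n : ℕ} (a : Fin n → ℕ) (σ : ℝ) (hσ : 0 ≤ σ) :
    (SDQ p n (ex a)).eval (tr' p σ : ℂ) *
      ((∫⁻ z, tau p σ (MvPolynomial.aeval z (npf n a))
        ∂(Measure.pi fun _ : Pr (2 * n) => mu p)).toReal : ℂ) =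
      (SNQ p n (ex a)).eval (tr' p σ : ℂ) := by
  rw [← SI_poly p σ hσ n (ex a), ← int_npf (PP p) a σ hσ]
  congr 4
  funext z
  rw [tau_eq p σ hσ, aeval_npf]
  rfl

/-- **The main theorem for the zeta function.** -/
theorem igusa_npf (p : ℕ) [Fact p.Prime] {n : ℕ} (a : Fin n → ℕ) (ha : Close 2 a) (Z : ℂ → ℂ)
    (hZ : MeromorphicOn Z Set.univ)
    (hI : ∀ s : ℂ, 0 < s.re → Z s = igusaZeta p (npf n a) s)
    (s₀ : ℂ) (hs₀ : meromorphicOrderAt Z s₀ < 0) (b : Polynomial ℂ)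
    (hb : Pool.Agent.H628R4.TP.IsBFunction (MvPolynomial.map (Int.castRingHom ℂ) (npf n a)) b) :
    b.eval (s₀.re : ℂ) = 0 := by
  have hD : SDQ p n (ex a) ≠ 0 := by
    intro h
    apply SDQ_zero p n (ex a)
    rw [h]; simp
  have h1 := mero_bound p (SDQ p n (ex a)) (SNQ p n (ex a)) hD Z hZ (fun s hs => by
    rw [hI s (by simpa using hs), igusaZeta_eq, pw_real]
    exact zeta_npf p a s hs.le) s₀
  have h2 : (SDQ p n (ex a)).eval (pw p s₀) = 0 := by
    by_contra hne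
    have h3 : (SDQ p n (ex a)).rootMultiplicity (pw p s₀) = 0 := Polynomial.rootMultiplicity_eq_zero hne
    rw [h3] at h1
    simp only [Nat.cast_zero, neg_zero] at h1
    exact absurd h1 (not_le.2 hs₀)
  have h4 := root_of_SDQ p a ha b hb _ h2
  rw [pw_norm] at h4
  exact h4

/-- **The main theorem for the Poincare series.** -/
theorem poincare_npf (p : ℕ) [Fact p.Prime] {n : ℕ} (a : Fin n → ℕ) (ha : Close 2 a) :
    ∃ Φ : RatFunc ℂ,
      ((Φ.denom : Polynomial ℂ) : PowerSeries ℂ) * poincare p (npf n a) =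
        ((Φ.num : Polynomial ℂ) : PowerSeries ℂ) ∧
      ∀ T₀ : ℂ, Φ.denom.eval T₀ = 0 → ∀ b : Polynomial ℂ,
        Pool.Agent.H628R4.TP.IsBFunction
          (MvPolynomial.map (Int.castRingHom ℂ) (npf n a)) b →
        b.eval ((-Real.log ‖T₀‖ / Real.log p : ℝ) : ℂ) = 0 := by
  have hD : SDQ p n (ex a) ≠ 0 := by
    intro h
    apply SDQ_zero p n (ex a)
    rw [h]; simp
  obtain ⟨Φ, h1, -, h2⟩ := poincare_of (p := p) (f := npf n a) (SDQ p n (ex a)) (SNQ p n (ex a)) hD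
    (fun s hs => zeta_npf p a s hs)
  refine ⟨Φ, h1, fun T₀ hT b hb => root_of_SDQ p a ha b hb T₀ ?_⟩
  by_contra hne
  have h3 := h2 T₀
  rw [Polynomial.rootMultiplicity_eq_zero hne] at h3
  have h4 : 0 < Φ.denom.rootMultiplicity T₀ :=
    (Polynomial.rootMultiplicity_pos Φ.denom_ne_zero).2 hT
  omega

/-! ### The nested minors with the weaker condition -/

theorem root_of_DQ' (p : ℕ) [Fact p.Prime] {n : ℕ} (a : Fin n → ℕ) (ha : Close 1 a) (b : Polynomial ℂ)
    (hb : Pool.Agent.H628R4.TP.IsBFunction (MvPolynomial.map (Int.castRingHom ℂ) (nested n a)) b)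
    (T : ℂ) (hT : (DQ p n (ex a)).eval T = 0) :
    b.eval ((-Real.log ‖T‖ / Real.log p : ℝ) : ℂ) = 0 := by
  obtain ⟨r, m, h1, h2, h3⟩ := DQ_root p T n (ex a) hT
  have hA : 0 < ∑ i ∈ Finset.range (m + 1), ex a (r + i + 1) := by
    rw [Finset.sum_range_succ]
    omega
  rw [log_root p T _ m hA h3]
  exact root_minors a ha b hb r m h1 h2

theorem igusa_minors (p : ℕ) [Fact p.Prime] {n : ℕ} (a : Fin n → ℕ) (ha : Close 1 a) (Z : ℂ → ℂ)
    (hZ : MeromorphicOn Z Set.univ)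
    (hI : ∀ s : ℂ, 0 < s.re → Z s = igusaZeta p (nested n a) s)
    (s₀ : ℂ) (hs₀ : meromorphicOrderAt Z s₀ < 0) (b : Polynomial ℂ)
    (hb : Pool.Agent.H628R4.TP.IsBFunction (MvPolynomial.map (Int.castRingHom ℂ) (nested n a)) b) :
    b.eval (s₀.re : ℂ) = 0 := by
  have hD : DQ p n (ex a) ≠ 0 := by
    intro h
    apply DQ_zero p n (ex a)
    rw [h]; simp
  have h1 := mero_bound p (DQ p n (ex a)) (NQ p n (ex a)) hD Z hZ (fun s hs => by
    rw [hI s (by simpa using hs), igusaZeta_eq, pw_real]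
    exact zeta_poly p a s hs.le) s₀
  have h2 : (DQ p n (ex a)).eval (pw p s₀) = 0 := by
    by_contra hne
    have h3 : (DQ p n (ex a)).rootMultiplicity (pw p s₀) = 0 := Polynomial.rootMultiplicity_eq_zero hne
    rw [h3] at h1
    simp only [Nat.cast_zero, neg_zero] at h1
    exact absurd h1 (not_le.2 hs₀)
  have h4 := root_of_DQ' p a ha b hb _ h2
  rw [pw_norm] at h4
  exact h4

theorem poincare_minors (p : ℕ) [Fact p.Prime] {n : ℕ} (a : Fin n → ℕ) (ha : Close 1 a) :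
    ∃ Φ : RatFunc ℂ,
      ((Φ.denom : Polynomial ℂ) : PowerSeries ℂ) * poincare p (nested n a) =
        ((Φ.num : Polynomial ℂ) : PowerSeries ℂ) ∧
      ∀ T₀ : ℂ, Φ.denom.eval T₀ = 0 → ∀ b : Polynomial ℂ,
        Pool.Agent.H628R4.TP.IsBFunction
          (MvPolynomial.map (Int.castRingHom ℂ) (nested n a)) b →
        b.eval ((-Real.log ‖T₀‖ / Real.log p : ℝ) : ℂ) = 0 := by
  have hD : DQ p n (ex a) ≠ 0 := by
    intro h
    apply DQ_zero p n (ex a)
    rw [h]; simp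
  obtain ⟨Φ, h1, -, h2⟩ := poincare_of (p := p) (f := nested n a) (DQ p n (ex a)) (NQ p n (ex a)) hD
    (fun s hs => zeta_poly p a s hs)
  refine ⟨Φ, h1, fun T₀ hT b hb => root_of_DQ' p a ha b hb T₀ ?_⟩
  by_contra hne
  have h3 := h2 T₀
  rw [Polynomial.rootMultiplicity_eq_zero hne] at h3
  have h4 : 0 < Φ.denom.rootMultiplicity T₀ :=
    (Polynomial.rootMultiplicity_pos Φ.denom_ne_zero).2 hT
  omega

end Pool.Agent.K6.H33.PF
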