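import Pool.Agent.K6.H33.NM.Lead

set_option autoImplicit false

/-! # Skew symmetric matrices: congruences by the substitutions of `Peel` -/

namespace Pool.Agent.K6.H33.PF

open MeasureTheory Matrix Set Pool.Agent.K6.H33.NM
open scoped ENNReal

/-- The pairs of indices `i < j`. -/
abbrev Pr (m : ℕ) : Type := {q : Fin m × Fin m // q.1 < q.2}

section alg

variable {R : Type} [CommRing R] {m : ℕ}

/-- The skew symmetric matrix with the entries `x` above the diagonal. -/
def sk (x : Pr m → R) (i j : Fin m) : R :=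
  if h : i < j then x ⟨(i, j), h⟩ else if h : j < i then - x ⟨(j, i), h⟩ else 0

theorem sk_lt (x : Pr m → R) {i j : Fin m} (h : i < j) : sk x i j = x ⟨(i, j), h⟩ := dif_pos h

theorem sk_self (x : Pr m → R) (i : Fin m) : sk x i i = 0 := by
  unfold sk
  rw [dif_neg (lt_irrefl _), dif_neg (lt_irrefl _)]

theorem sk_neg (x : Pr m → R) (i j : Fin m) : sk x i j = - sk x j i := by
  unfold sk
  rcases lt_trichotomy i j with h | h | h
  · rw [dif_pos h, dif_neg h.not_gt, dif_pos h, neg_neg]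
  · subst h
    rw [dif_neg (lt_irrefl _), dif_neg (lt_irrefl _), neg_zero]
  · rw [dif_neg h.not_gt, dif_pos h, dif_pos h]

/-- The entries above the diagonal. -/
def up (B : Fin m → Fin m → R) : Pr m → R := fun q => B q.1.1 q.1.2

theorem sk_up (B : Fin m → Fin m → R) (h0 : ∀ i, B i i = 0) (h1 : ∀ i j, B i j = - B j i) :
    sk (up B) = B := by
  funext i j
  rcases lt_trichotomy i j with h | h | h
  · rw [sk_lt _ h]; rfl
  · subst h
    rw [sk_self, h0]
  · rw [sk_neg, sk_lt _ h, h1 i j]; rfl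

/-- The congruence `Gᵀ B G`. -/
def cg (G : Matrix (Fin m) (Fin m) R) (B : Fin m → Fin m → R) (i j : Fin m) : R :=
  ((fun a => (B a ᵥ* G) j) ᵥ* G) i

theorem cg_eq (G : Matrix (Fin m) (Fin m) R) (B : Fin m → Fin m → R) (i j : Fin m) :
    cg G B i j = (Gᵀ * (Matrix.of B * G)) i j := by
  rw [Matrix.mul_apply]
  unfold cg
  simp only [Matrix.vecMul, dotProduct, Matrix.transpose_apply, Matrix.mul_apply, Matrix.of_apply]
  exact Finset.sum_congr rfl fun a _ => mul_comm _ _

theorem cg_skew (G : Matrix (Fin m) (Fin m) R) (B : Fin m → Fin m → R)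
    (h1 : ∀ i j, B i j = - B j i) (i j : Fin m) : cg G B i j = - cg G B j i := by
  rw [cg_eq, cg_eq]
  have h2 : (Matrix.of B)ᵀ = - Matrix.of B := by
    ext i j
    simp only [Matrix.transpose_apply, Matrix.of_apply, Matrix.neg_apply]
    exact h1 j i
  have h3 : (Gᵀ * (Matrix.of B * G))ᵀ = - (Gᵀ * (Matrix.of B * G)) := by
    rw [Matrix.transpose_mul, Matrix.transpose_mul, Matrix.transpose_transpose, h2, Matrix.mul_neg,
      Matrix.neg_mul, Matrix.mul_assoc]
  have h4 := congrFun (congrFun h3 j) i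
  rw [Matrix.transpose_apply, Matrix.neg_apply] at h4
  exact h4

theorem cg_self (h2 : ∀ x : R, x + x = 0 → x = 0) (G : Matrix (Fin m) (Fin m) R)
    (B : Fin m → Fin m → R) (h1 : ∀ i j, B i j = - B j i) (i : Fin m) : cg G B i i = 0 := by
  apply h2
  have h3 := cg_skew G B h1 i i
  linear_combination h3

theorem cg_lin (G : Matrix (Fin m) (Fin m) R) (X : Fin m → Fin m → R) (c d : R) (i j : Fin m) :
    cg G (fun a b => X a b * c + X b a * d) i j = cg G X i j * c + cg G X j i * d := by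
  rw [cg_eq, cg_eq, cg_eq]
  have h1 : (Matrix.of fun a b => X a b * c + X b a * d) = c • Matrix.of X + d • (Matrix.of X)ᵀ := by
    ext a b
    simp only [Matrix.of_apply, Matrix.add_apply, Matrix.smul_apply, Matrix.transpose_apply,
      smul_eq_mul]
    ring
  have h2 : (Gᵀ * ((Matrix.of X)ᵀ * G)) i j = (Gᵀ * (Matrix.of X * G)) j i := by
    have h3 : (Gᵀ * (Matrix.of X * G))ᵀ = Gᵀ * ((Matrix.of X)ᵀ * G) := by
      rw [Matrix.transpose_mul, Matrix.transpose_mul, Matrix.transpose_transpose, Matrix.mul_assoc]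
    rw [← h3, Matrix.transpose_apply]
  rw [h1, Matrix.add_mul, Matrix.mul_add, Matrix.smul_mul, Matrix.smul_mul, Matrix.mul_smul,
    Matrix.mul_smul, Matrix.add_apply, Matrix.smul_apply, Matrix.smul_apply, h2]
  simp only [smul_eq_mul]
  ring

/-- Bordered matrices. -/
def bd (a : R) (v w : Fin m → R) (C : Matrix (Fin m) (Fin m) R) :
    Matrix (Fin (m + 1)) (Fin (m + 1)) R :=
  Matrix.of (Fin.cons (Fin.cons a v) (fun i => Fin.cons (w i) (C i)))

theorem bd_mul_right (a : R) (v w : Fin m → R) (C G : Matrix (Fin m) (Fin m) R) :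
    bd a v w C * bd 1 0 0 G = bd a (v ᵥ* G) w (C * G) := by
  ext i j
  rw [Matrix.mul_apply, Fin.sum_univ_succ]
  refine Fin.cases ?_ (fun i => ?_) i <;> refine Fin.cases ?_ (fun j => ?_) j <;>
    simp [bd, Matrix.vecMul, dotProduct, Matrix.mul_apply]

theorem bd_mul_left (a : R) (v w : Fin m → R) (C G : Matrix (Fin m) (Fin m) R) :
    (bd 1 0 0 G)ᵀ * bd a v w C = bd a v (w ᵥ* G) (Gᵀ * C) := by
  ext i j
  rw [Matrix.mul_apply, Fin.sum_univ_succ]
  refine Fin.cases ?_ (fun i => ?_) i <;> refine Fin.cases ?_ (fun j => ?_) j <;>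
    simp [bd, Matrix.vecMul, dotProduct, Matrix.mul_apply, mul_comm]

theorem bd_det (G : Matrix (Fin m) (Fin m) R) : (bd 1 0 0 G).det = G.det := by
  rw [Matrix.det_succ_row_zero, Fin.sum_univ_succ]
  have h0 : ∑ i : Fin m, (-1 : R) ^ ((i.succ : Fin (m + 1)) : ℕ) * bd 1 0 0 G 0 i.succ *
      ((bd 1 0 0 G).submatrix Fin.succ (i.succ : Fin (m + 1)).succAbove).det = 0 := by
    refine Finset.sum_eq_zero fun i _ => ?_
    simp [bd]
  rw [h0, add_zero]
  have h1 : (bd 1 0 0 G).submatrix Fin.succ (Fin.succAbove (0 : Fin (m + 1))) = G := by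
    ext i j
    simp [bd]
  rw [h1]
  simp [bd]

theorem bd_special (w : Fin (m + 1) → R) (hw : ∀ j : Fin m, w j.succ = 0)
    (C : Matrix (Fin (m + 1)) (Fin (m + 1)) R) :
    (bd 0 (fun j => - w j) w C).det = w 0 ^ 2 * (Matrix.of fun i j : Fin m => C i.succ j.succ).det := by
  rw [Matrix.det_succ_row_zero, Fin.sum_univ_succ, Fin.sum_univ_succ]
  have h0 : ∑ i : Fin m, (-1 : R) ^ ((i.succ.succ : Fin (m + 2)) : ℕ) *
      bd 0 (fun j => - w j) w C 0 i.succ.succ *
      ((bd 0 (fun j => - w j) w C).submatrix Fin.succ (i.succ.succ : Fin (m + 2)).succAbove).det = 0 := by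
    refine Finset.sum_eq_zero fun i _ => ?_
    simp [bd, hw]
  have h00 : bd 0 (fun j => - w j) w C 0 0 = 0 := by simp [bd]
  have h01 : bd 0 (fun j => - w j) w C 0 (Fin.succ 0) = - w 0 := by simp [bd]
  rw [h0, add_zero, h00, h01, mul_zero, zero_mul, zero_add]
  rw [Matrix.det_succ_column_zero, Fin.sum_univ_succ]
  have h1 : ∑ i : Fin m, (-1 : R) ^ ((i.succ : Fin (m + 1)) : ℕ) *
      ((bd 0 (fun j => - w j) w C).submatrix Fin.succ (Fin.succ 0 : Fin (m + 2)).succAbove) i.succ 0 *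
      (((bd 0 (fun j => - w j) w C).submatrix Fin.succ
        (Fin.succ 0 : Fin (m + 2)).succAbove).submatrix (i.succ : Fin (m + 1)).succAbove Fin.succ).det
        = 0 := by
    refine Finset.sum_eq_zero fun i _ => ?_
    have : ((bd 0 (fun j => - w j) w C).submatrix Fin.succ (Fin.succ 0 : Fin (m + 2)).succAbove)
        i.succ 0 = 0 := by
      rw [Matrix.submatrix_apply, Fin.succ_succAbove_zero]
      simp [bd, hw]
    rw [this, mul_zero, zero_mul]
  rw [h1, add_zero]
  have h2 : ((bd 0 (fun j => - w j) w C).submatrix Fin.succ (Fin.succ 0 : Fin (m + 2)).succAbove)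
      0 0 = w 0 := by
    rw [Matrix.submatrix_apply, Fin.succ_succAbove_zero]
    simp [bd]
  have h3 : (((bd 0 (fun j => - w j) w C).submatrix Fin.succ
      (Fin.succ 0 : Fin (m + 2)).succAbove).submatrix (Fin.succAbove 0) Fin.succ) =
      (Matrix.of fun i j : Fin m => C i.succ j.succ) := by
    ext i j
    rw [Matrix.submatrix_apply, Matrix.submatrix_apply, Fin.succ_succAbove_succ, Fin.zero_succAbove]
    simp [bd]
  rw [h2, h3]
  simp
  ring

end alg

section

variable {K : Type} [CommRing K] [MeasurableSpace K]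

theorem cg_two (P : Peel K) (n : ℕ) (u : Fin (n + 2) → K) (B : Fin (n + 2) → Fin (n + 2) → K)
    (i j : Fin n) : cg (UU P (n + 1) u) B i.succ.succ j.succ.succ =
      cg (UU P n (Fin.tail u)) (fun a b => B a.succ b.succ) i.succ j.succ := by
  unfold cg
  rw [vec_two]
  congr 1
  congr 1
  funext a
  simp only [Fin.tail]
  rw [vec_two]
  rfl

/-- **The determinant of a bordered skew matrix.** -/
theorem det_border (P : Peel K) (m : ℕ) (u : Fin (m + 1) → K) (B : Fin (m + 1) → Fin (m + 1) → K) :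
    P.nrm (bd 0 (fun j => - u j) u (Matrix.of B)).det =
      P.N (m + 1) u ^ 2 * P.nrm (Matrix.det (Matrix.of fun i j : Fin m =>
        cg (UU P m u) B i.succ j.succ)) := by
  set G := UU P m u with hG
  have h1 : (bd 1 0 0 G)ᵀ * (bd 0 (fun j => - u j) u (Matrix.of B) * bd 1 0 0 G) =
      bd 0 (fun j => - (u ᵥ* G) j) (u ᵥ* G) (Gᵀ * (Matrix.of B * G)) := by
    rw [bd_mul_right, bd_mul_left]
    congr 1
    funext j
    have : (fun j => - u j) = -u := rfl
    rw [this, Matrix.neg_vecMul, Pi.neg_apply]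
  have h2 : P.nrm ((bd 1 0 0 G)ᵀ * (bd 0 (fun j => - u j) u (Matrix.of B) * bd 1 0 0 G)).det =
      P.nrm (bd 0 (fun j => - u j) u (Matrix.of B)).det := by
    rw [Matrix.det_mul, Matrix.det_mul, Matrix.det_transpose, bd_det, P.nrm_mul, P.nrm_mul, hG, det_UU,
      one_mul, mul_one]
  rw [← h2, h1, bd_special _ (fun j => u_succ P m u j), P.nrm_mul]
  have h3 : P.nrm ((u ᵥ* G) 0 ^ 2) = P.N (m + 1) u ^ 2 := by
    rw [sq, P.nrm_mul, u_zero, sq]
  rw [h3]
  congr 3
  ext i j
  rw [Matrix.of_apply, Matrix.of_apply, cg_eq]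

end

end Pool.Agent.K6.H33.PF
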